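import Mathlib

/-! Linear algebra for the continuity of the squeezing measure -/

set_option linter.unusedSectionVars false

namespace Q223.SQ

open Matrix

variable {ι : Type*} [Fintype ι] [DecidableEq ι]

/-- quadratic form -/
def q (M : Matrix ι ι ℝ) (x : ι → ℝ) : ℝ := x ⬝ᵥ M *ᵥ x

lemma q_add (A B : Matrix ι ι ℝ) (x : ι → ℝ) : q (A + B) x = q A x + q B x := by
  simp [q, Matrix.add_mulVec, dotProduct_add]

lemma q_sub (A B : Matrix ι ι ℝ) (x : ι → ℝ) : q (A - B) x = q A x - q B x := by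
  simp [q, Matrix.sub_mulVec, dotProduct_sub]

lemma q_smul (c : ℝ) (A : Matrix ι ι ℝ) (x : ι → ℝ) : q (c • A) x = c * q A x := by
  simp [q, Matrix.smul_mulVec, dotProduct_smul]

lemma q_smul' (c : ℝ) (A : Matrix ι ι ℝ) (x : ι → ℝ) : q A (c • x) = c ^ 2 * q A x := by
  simp [q, Matrix.mulVec_smul, dotProduct_smul, smul_dotProduct]; ring

lemma dot_mulVec_comm {A : Matrix ι ι ℝ} (hA : Aᵀ = A) (x y : ι → ℝ) :
    x ⬝ᵥ A *ᵥ y = y ⬝ᵥ A *ᵥ x := by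
  rw [Matrix.dotProduct_mulVec, ← Matrix.mulVec_transpose, hA, dotProduct_comm]

lemma q_add_vec {A : Matrix ι ι ℝ} (hA : Aᵀ = A) (x y : ι → ℝ) :
    q A (x + y) = q A x + q A y + 2 * (x ⬝ᵥ A *ᵥ y) := by
  have := dot_mulVec_comm hA x y
  simp only [q, Matrix.mulVec_add, dotProduct_add, add_dotProduct]
  linarith

lemma q_sub_vec {A : Matrix ι ι ℝ} (hA : Aᵀ = A) (x y : ι → ℝ) :
    q A (x - y) = q A x + q A y - 2 * (x ⬝ᵥ A *ᵥ y) := by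
  have := dot_mulVec_comm hA x y
  simp only [q, Matrix.mulVec_sub, dotProduct_sub, sub_dotProduct]
  linarith

lemma q_conj (B A : Matrix ι ι ℝ) (x : ι → ℝ) : q (Bᵀ * A * B) x = q A (B *ᵥ x) := by
  simp only [q]
  rw [← Matrix.mulVec_mulVec, ← Matrix.mulVec_mulVec, Matrix.dotProduct_mulVec x,
    ← Matrix.mulVec_transpose, Matrix.transpose_transpose]

lemma q_gram (X : Matrix ι ι ℝ) (x : ι → ℝ) : q (Xᵀ * X) x = (X *ᵥ x) ⬝ᵥ (X *ᵥ x) := by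
  simp only [q]
  rw [← Matrix.mulVec_mulVec, Matrix.dotProduct_mulVec x, ← Matrix.mulVec_transpose,
    Matrix.transpose_transpose]

lemma symm_of_posDef {A : Matrix ι ι ℝ} (hA : A.PosDef) : Aᵀ = A := by
  have := hA.1
  rwa [Matrix.IsHermitian, Matrix.conjTranspose_eq_transpose_of_trivial] at this

lemma symm_of_posSemidef {A : Matrix ι ι ℝ} (hA : A.PosSemidef) : Aᵀ = A := by
  have := hA.1
  rwa [Matrix.IsHermitian, Matrix.conjTranspose_eq_transpose_of_trivial] at this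

lemma q_pos {A : Matrix ι ι ℝ} (hA : A.PosDef) {x : ι → ℝ} (hx : x ≠ 0) : 0 < q A x := by
  have := hA.dotProduct_mulVec_pos hx
  simpa [q] using this

lemma q_nonneg {A : Matrix ι ι ℝ} (hA : A.PosDef) (x : ι → ℝ) : 0 ≤ q A x := by
  have := hA.posSemidef.dotProduct_mulVec_nonneg x
  simpa [q] using this

lemma posDef_of {A : Matrix ι ι ℝ} (hA : Aᵀ = A) (h : ∀ x : ι → ℝ, x ≠ 0 → 0 < q A x) :
    A.PosDef := by
  refine Matrix.PosDef.of_dotProduct_mulVec_pos ?_ fun {x} hx => ?_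
  · rw [Matrix.IsHermitian, Matrix.conjTranspose_eq_transpose_of_trivial, hA]
  · simpa [q] using h x hx

lemma posSemidef_of {A : Matrix ι ι ℝ} (hA : Aᵀ = A) (h : ∀ x : ι → ℝ, 0 ≤ q A x) :
    A.PosSemidef := by
  refine Matrix.PosSemidef.of_dotProduct_mulVec_nonneg ?_ fun x => ?_
  · rw [Matrix.IsHermitian, Matrix.conjTranspose_eq_transpose_of_trivial, hA]
  · simpa [q] using h x

/-- Loewner order on the level of quadratic forms -/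
def Le (A B : Matrix ι ι ℝ) : Prop := ∀ x, q A x ≤ q B x

lemma Le.trans {A B C : Matrix ι ι ℝ} (h : Le A B) (h' : Le B C) : Le A C :=
  fun x => (h x).trans (h' x)

lemma Le.antisymm {A B : Matrix ι ι ℝ} (hA : Aᵀ = A) (hB : Bᵀ = B) (h : Le A B) (h' : Le B A) :
    A = B := by
  have hq : ∀ x, q A x = q B x := fun x => le_antisymm (h x) (h' x)
  have hxy : ∀ x y : ι → ℝ, x ⬝ᵥ A *ᵥ y = x ⬝ᵥ B *ᵥ y := by
    intro x y
    have h1 := hq (x + y)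
    rw [q_add_vec hA, q_add_vec hB, hq x, hq y] at h1
    linarith
  ext i j
  have := hxy (Pi.single i 1) (Pi.single j 1)
  simpa using this

lemma mul_inv' {A : Matrix ι ι ℝ} (hA : A.PosDef) : A * A⁻¹ = 1 :=
  Matrix.mul_nonsing_inv _ ((Matrix.isUnit_iff_isUnit_det A).mp hA.isUnit)

lemma inv_mul' {A : Matrix ι ι ℝ} (hA : A.PosDef) : A⁻¹ * A = 1 :=
  Matrix.nonsing_inv_mul _ ((Matrix.isUnit_iff_isUnit_det A).mp hA.isUnit)

lemma q_inv {A : Matrix ι ι ℝ} (hA : A.PosDef) (w : ι → ℝ) : q A (A⁻¹ *ᵥ w) = q A⁻¹ w := by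
  simp only [q]
  rw [Matrix.mulVec_mulVec, mul_inv' hA, Matrix.one_mulVec, dotProduct_comm]

lemma base {A : Matrix ι ι ℝ} (hA : A.PosDef) (x w : ι → ℝ) :
    0 ≤ q A x + q A⁻¹ w - 2 * (x ⬝ᵥ w) := by
  have h := q_nonneg hA (x - A⁻¹ *ᵥ w)
  rw [q_sub_vec (symm_of_posDef hA), q_inv hA, Matrix.mulVec_mulVec, mul_inv' hA,
    Matrix.one_mulVec] at h
  linarith

lemma inv_anti {P γ : Matrix ι ι ℝ} (hP : P.PosDef) (hγ : γ.PosDef) (h : Le P γ) :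
    Le γ⁻¹ P⁻¹ := by
  intro u
  have h1 := base hP (γ⁻¹ *ᵥ u) u
  have h2 := h (γ⁻¹ *ᵥ u)
  rw [q_inv hγ] at h2
  have h3 : (γ⁻¹ *ᵥ u) ⬝ᵥ u = q γ⁻¹ u := by
    rw [q, dotProduct_comm]
  rw [h3] at h1
  linarith

/-- the hypotheses on `σ` -/
structure Sig (σ : Matrix ι ι ℝ) : Prop where
  anti : σᵀ = -σ
  orth : σᵀ * σ = 1

variable {σ : Matrix ι ι ℝ}

lemma Sig.orth' (hσ : Sig σ) : σ * σᵀ = 1 := mul_eq_one_comm.mp hσ.orth

lemma Sig.sq (hσ : Sig σ) : σ * σ = -1 := by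
  have h := hσ.orth
  rw [hσ.anti, neg_mul] at h
  rw [← neg_eq_iff_eq_neg]
  exact h

lemma Sig.sqT (hσ : Sig σ) : σᵀ * σᵀ = -1 := by
  rw [hσ.anti, neg_mul_neg, hσ.sq]

/-- `A^♯ = σ A⁻¹ σᵀ` -/
noncomputable def sharp (σ A : Matrix ι ι ℝ) : Matrix ι ι ℝ := σ * A⁻¹ * σᵀ

lemma q_sharp (σ A : Matrix ι ι ℝ) (x : ι → ℝ) : q (sharp σ A) x = q A⁻¹ (σᵀ *ᵥ x) := by
  have := q_conj σᵀ A⁻¹ x
  rwa [Matrix.transpose_transpose] at this

lemma sharp_symm {A : Matrix ι ι ℝ} (hA : A.PosDef) : (sharp σ A)ᵀ = sharp σ A := by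
  have h : (A⁻¹)ᵀ = A⁻¹ := symm_of_posDef hA.inv
  simp only [sharp, Matrix.transpose_mul, Matrix.transpose_transpose, h, Matrix.mul_assoc]

lemma sharp_posDef (hσ : Sig σ) {A : Matrix ι ι ℝ} (hA : A.PosDef) : (sharp σ A).PosDef := by
  refine posDef_of (sharp_symm hA) fun x hx => ?_
  rw [q_sharp]
  apply q_pos hA.inv
  intro h0
  apply hx
  have : (σ * σᵀ) *ᵥ x = 0 := by
    rw [← Matrix.mulVec_mulVec, h0, Matrix.mulVec_zero]
  rwa [hσ.orth', Matrix.one_mulVec] at this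

lemma sharp_sharp (hσ : Sig σ) {A : Matrix ι ι ℝ} (hA : A.PosDef) :
    sharp σ (sharp σ A) = A := by
  have h1 : (sharp σ A)⁻¹ = σ * A * σᵀ := by
    apply Matrix.inv_eq_right_inv
    calc σ * A⁻¹ * σᵀ * (σ * A * σᵀ) = σ * A⁻¹ * (σᵀ * σ) * A * σᵀ := by noncomm_ring
      _ = σ * (A⁻¹ * A) * σᵀ := by rw [hσ.orth]; noncomm_ring
      _ = 1 := by rw [inv_mul' hA, Matrix.mul_one, hσ.orth']
  rw [sharp, h1]
  calc σ * (σ * A * σᵀ) * σᵀ = (σ * σ) * A * (σᵀ * σᵀ) := by noncomm_ring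
    _ = A := by rw [hσ.sq, hσ.sqT]; noncomm_ring

lemma sharp_anti {A B : Matrix ι ι ℝ} (hA : A.PosDef) (hB : B.PosDef) (h : Le A B) :
    Le (sharp σ B) (sharp σ A) := by
  intro x
  rw [q_sharp, q_sharp]
  exact inv_anti hA hB h _

/-- uncertainty relation in real form -/
def U (σ γ : Matrix ι ι ℝ) : Prop :=
  ∀ x y : ι → ℝ, 0 ≤ q γ x + q γ y + x ⬝ᵥ σ *ᵥ y - y ⬝ᵥ σ *ᵥ x

lemma dot_sigma (hσ : Sig σ) (x y : ι → ℝ) : x ⬝ᵥ σ *ᵥ y = -(y ⬝ᵥ σ *ᵥ x) := by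
  rw [Matrix.dotProduct_mulVec, ← Matrix.mulVec_transpose, hσ.anti, Matrix.neg_mulVec,
    neg_dotProduct, dotProduct_comm]

lemma posDef_of_U (hσ : Sig σ) {γ : Matrix ι ι ℝ} (hs : γᵀ = γ) (hU : U σ γ) : γ.PosDef := by
  refine posDef_of hs fun x hx => ?_
  by_contra hle
  rw [not_lt] at hle
  set y := σ *ᵥ x with hy
  have hxx : 0 < x ⬝ᵥ x := by
    have := Matrix.dotProduct_star_self_pos_iff (v := x)
    simpa using this.mpr hx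
  have h1 : x ⬝ᵥ σ *ᵥ y = -(x ⬝ᵥ x) := by
    rw [hy, Matrix.mulVec_mulVec, hσ.sq, Matrix.neg_mulVec, Matrix.one_mulVec, dotProduct_neg]
  have h2 : y ⬝ᵥ σ *ᵥ x = x ⬝ᵥ x := by
    have := dot_sigma hσ x y
    rw [h1] at this
    linarith
  have key : ∀ s : ℝ, 0 ≤ s ^ 2 * q γ y - 2 * s * (x ⬝ᵥ x) := by
    intro s
    have := hU x (s • y)
    rw [q_smul', Matrix.mulVec_smul, dotProduct_smul, smul_dotProduct, h1, h2] at this
    simp only [smul_eq_mul] at this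
    linarith
  rcases le_or_gt (q γ y) 0 with h3 | h3
  · have := key 1
    nlinarith
  · have := key ((x ⬝ᵥ x) / q γ y)
    have h4 : ((x ⬝ᵥ x) / q γ y) ^ 2 * q γ y = (x ⬝ᵥ x) ^ 2 / q γ y := by
      field_simp
    have h5 : 2 * ((x ⬝ᵥ x) / q γ y) * (x ⬝ᵥ x) = 2 * ((x ⬝ᵥ x) ^ 2 / q γ y) := by
      field_simp
    rw [h4, h5] at this
    have : 0 < (x ⬝ᵥ x) ^ 2 / q γ y := by positivity
    linarith

lemma sharp_le_of_U (hσ : Sig σ) {γ : Matrix ι ι ℝ} (hs : γᵀ = γ) (hU : U σ γ) :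
    Le (sharp σ γ) γ := by
  have hpd := posDef_of_U hσ hs hU
  intro x
  rw [q_sharp]
  set u := σᵀ *ᵥ x with hu
  have h := hU x (-(γ⁻¹ *ᵥ u))
  have h1 : q γ (-(γ⁻¹ *ᵥ u)) = q γ⁻¹ u := by
    rw [← q_inv hpd u]
    simp [q, Matrix.mulVec_neg]
  have h2 : x ⬝ᵥ σ *ᵥ (-(γ⁻¹ *ᵥ u)) = - q γ⁻¹ u := by
    rw [Matrix.dotProduct_mulVec, ← Matrix.mulVec_transpose, ← hu, dotProduct_neg]
    rfl
  have h3 : (-(γ⁻¹ *ᵥ u)) ⬝ᵥ σ *ᵥ x = q γ⁻¹ u := by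
    rw [dot_sigma hσ, h2, neg_neg]
  rw [h1, h2, h3] at h
  linarith

lemma U_avg (hσ : Sig σ) {A : Matrix ι ι ℝ} (hA : A.PosDef) :
    U σ ((1 / 2 : ℝ) • (A + sharp σ A)) := by
  intro x y
  rw [q_smul, q_smul, q_add, q_add, q_sharp, q_sharp]
  have h1 := base hA x (σᵀ *ᵥ y)
  have h2 := base hA y (-(σᵀ *ᵥ x))
  have h3 : q A⁻¹ (-(σᵀ *ᵥ x)) = q A⁻¹ (σᵀ *ᵥ x) := by simp [q, Matrix.mulVec_neg]
  have h4 : x ⬝ᵥ σᵀ *ᵥ y = y ⬝ᵥ σ *ᵥ x := by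
    rw [Matrix.dotProduct_mulVec, ← Matrix.mulVec_transpose, Matrix.transpose_transpose,
      dotProduct_comm]
  have h5 : y ⬝ᵥ (-(σᵀ *ᵥ x)) = -(x ⬝ᵥ σ *ᵥ y) := by
    rw [dotProduct_neg, Matrix.dotProduct_mulVec, ← Matrix.mulVec_transpose,
      Matrix.transpose_transpose, dotProduct_comm]
  have h6 := dot_sigma hσ x y
  rw [h4] at h1
  rw [h3, h5] at h2
  linarith

lemma symm_avg {A : Matrix ι ι ℝ} (hA : A.PosDef) :
    ((1 / 2 : ℝ) • (A + sharp σ A))ᵀ = (1 / 2 : ℝ) • (A + sharp σ A) := by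
  rw [Matrix.transpose_smul, Matrix.transpose_add, symm_of_posDef hA, sharp_symm hA]

/-- symplectic matrices -/
def Sy (σ S : Matrix ι ι ℝ) : Prop := Sᵀ * σ * S = σ

lemma gram_symm (S : Matrix ι ι ℝ) : (Sᵀ * S)ᵀ = Sᵀ * S := by
  rw [Matrix.transpose_mul, Matrix.transpose_transpose]

lemma Sy.left_inv (hσ : Sig σ) {S : Matrix ι ι ℝ} (hS : Sy σ S) : (σᵀ * Sᵀ * σ) * S = 1 := by
  have : σᵀ * Sᵀ * σ * S = σᵀ * (Sᵀ * σ * S) := by noncomm_ring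
  rw [this, hS, hσ.orth]

lemma Sy.gram_posDef (hσ : Sig σ) {S : Matrix ι ι ℝ} (hS : Sy σ S) : (Sᵀ * S).PosDef := by
  refine posDef_of (gram_symm S) fun x hx => ?_
  rw [q_gram]
  have hne : S *ᵥ x ≠ 0 := by
    intro h0
    apply hx
    have : (σᵀ * Sᵀ * σ * S) *ᵥ x = 0 := by
      rw [← Matrix.mulVec_mulVec, h0, Matrix.mulVec_zero]
    rwa [hS.left_inv hσ, Matrix.one_mulVec] at this
  have := Matrix.dotProduct_star_self_pos_iff (v := S *ᵥ x)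
  simpa using this.mpr hne

lemma Sy.sharp_gram (hσ : Sig σ) {S : Matrix ι ι ℝ} (hS : Sy σ S) :
    sharp σ (Sᵀ * S) = Sᵀ * S := by
  have h1 := hS.left_inv hσ
  have h1' : S * (σᵀ * Sᵀ * σ) = 1 := mul_eq_one_comm.mp h1
  have h2 : Sᵀ * (σᵀ * S * σ) = 1 := by
    have := congrArg Matrix.transpose h1
    simp only [Matrix.transpose_mul, Matrix.transpose_transpose, Matrix.transpose_one] at this
    have h3 : Sᵀ * (σᵀ * S * σ) = Sᵀ * (σᵀ * (S * σ)) := by noncomm_ring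
    rw [h3]
    exact this
  have hinv : (Sᵀ * S)⁻¹ = (σᵀ * Sᵀ * σ) * (σᵀ * S * σ) := by
    apply Matrix.inv_eq_right_inv
    calc Sᵀ * S * ((σᵀ * Sᵀ * σ) * (σᵀ * S * σ))
        = Sᵀ * (S * (σᵀ * Sᵀ * σ)) * (σᵀ * S * σ) := by noncomm_ring
      _ = 1 := by rw [h1', Matrix.mul_one, h2]
  rw [sharp, hinv]
  calc σ * ((σᵀ * Sᵀ * σ) * (σᵀ * S * σ)) * σᵀ
      = (σ * σᵀ) * Sᵀ * (σ * σᵀ) * S * (σ * σᵀ) := by noncomm_ring
    _ = Sᵀ * S := by rw [hσ.orth']; noncomm_ring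

lemma eq_of_le_of_sharp (P P' : Matrix ι ι ℝ) (hP : P.PosDef) (hP' : P'.PosDef)
    (h : sharp σ P = P) (h' : sharp σ P' = P') (hle : Le P P') : P = P' := by
  have h2 := sharp_anti (σ := σ) hP hP' hle
  rw [h, h'] at h2
  exact Le.antisymm (symm_of_posDef hP) (symm_of_posDef hP') hle h2

end Q223.SQ
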