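import Pool.Agent.Q223.SQ.A

/-! Existence of pure states below a covariance matrix; factorisation -/

set_option linter.unusedSectionVars false

namespace Q223.SQ

open Matrix Topology Filter

variable {ι : Type*} [Fintype ι] [DecidableEq ι] {σ : Matrix ι ι ℝ}

lemma toE (A : Matrix ι ι ℝ) (v : ι → ℝ) :
    Matrix.toEuclideanLin A (WithLp.toLp 2 v) = WithLp.toLp 2 (A *ᵥ v) := rfl

lemma normE (v : ι → ℝ) : ‖(WithLp.toLp 2 v : EuclideanSpace ℝ ι)‖ ^ 2 = v ⬝ᵥ v := by
  rw [EuclideanSpace.real_norm_sq_eq]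
  simp [dotProduct, sq]

/-- Douglas factorisation -/
lemma douglas (X Y : Matrix ι ι ℝ) (h : Le (Yᵀ * Y) (Xᵀ * X)) :
    ∃ T : Matrix ι ι ℝ, T * X = Y ∧ Le (Tᵀ * T) 1 := by
  set X' := Matrix.toEuclideanLin X with hX'
  set Y' := Matrix.toEuclideanLin Y with hY'
  have hle : ∀ v, ‖Y' v‖ ≤ ‖X' v‖ := by
    intro v
    have := h v.ofLp
    rw [q_gram, q_gram, ← normE, ← normE, ← toE, ← toE] at this
    exact (sq_le_sq₀ (norm_nonneg _) (norm_nonneg _)).mp this
  obtain ⟨g, hg⟩ := X'.rangeRestrict.exists_rightInverse_of_surjective X'.range_rangeRestrict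
  have hg' : ∀ r : LinearMap.range X', X' (g r) = r := by
    intro r
    have := LinearMap.congr_fun hg r
    exact congrArg Subtype.val this
  set T' : EuclideanSpace ℝ ι →ₗ[ℝ] EuclideanSpace ℝ ι :=
    Y' ∘ₗ g ∘ₗ (LinearMap.range X').orthogonalProjectionOnto.toLinearMap with hT'
  have hTX : ∀ v, T' (X' v) = Y' v := by
    intro v
    have h1 : (LinearMap.range X').orthogonalProjectionOnto (X' v) = ⟨X' v, LinearMap.mem_range_self _ _⟩ :=
      Submodule.orthogonalProjectionOnto_mem_subspace_eq_self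
        (⟨X' v, LinearMap.mem_range_self _ _⟩ : LinearMap.range X')
    have h2 : T' (X' v) = Y' (g ⟨X' v, LinearMap.mem_range_self _ _⟩) := by
      simp only [hT', LinearMap.comp_apply, ContinuousLinearMap.coe_coe, h1]
    rw [h2, ← sub_eq_zero, ← map_sub, ← norm_le_zero_iff]
    refine (hle _).trans ?_
    rw [map_sub, hg', sub_self, norm_zero]
  have hTn : ∀ w, ‖T' w‖ ≤ ‖w‖ := by
    intro w
    have h2 : T' w = Y' (g ((LinearMap.range X').orthogonalProjectionOnto w)) := rfl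
    rw [h2]
    refine (hle _).trans ?_
    rw [hg']
    exact Submodule.norm_orthogonalProjectionOnto_apply_le _ w
  refine ⟨Matrix.toEuclideanLin.symm T', ?_, ?_⟩
  · apply Matrix.toEuclideanLin.injective
    refine LinearMap.ext fun v => ?_
    have h3 : Matrix.toEuclideanLin (Matrix.toEuclideanLin.symm T' * X) v =
        Matrix.toEuclideanLin (Matrix.toEuclideanLin.symm T') (X' v) := by
      change WithLp.toLp 2 ((Matrix.toEuclideanLin.symm T' * X) *ᵥ v.ofLp) =
        WithLp.toLp 2 ((Matrix.toEuclideanLin.symm T') *ᵥ (X *ᵥ v.ofLp))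
      rw [Matrix.mulVec_mulVec]
    rw [h3, LinearEquiv.apply_symm_apply, hTX]
  · intro w
    have h4 : q 1 w = w ⬝ᵥ w := by simp [q]
    rw [q_gram, h4, ← normE, ← normE, ← toE, LinearEquiv.apply_symm_apply]
    have := hTn (WithLp.toLp 2 w)
    gcongr

lemma continuous_q (x : ι → ℝ) : Continuous fun M : Matrix ι ι ℝ => q M x := by
  unfold q
  exact Continuous.dotProduct continuous_const (Continuous.matrix_mulVec continuous_id continuous_const)

lemma isClosed_symm : IsClosed {γ : Matrix ι ι ℝ | γᵀ = γ} :=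
  isClosed_eq (Continuous.matrix_transpose continuous_id) continuous_id

lemma isClosed_U (σ : Matrix ι ι ℝ) : IsClosed {γ : Matrix ι ι ℝ | U σ γ} := by
  simp only [U, Set.ofPred_forall]
  refine isClosed_iInter fun x => isClosed_iInter fun y => ?_
  refine isClosed_le continuous_const ?_
  exact (((continuous_q x).add (continuous_q y)).add continuous_const).sub continuous_const

lemma isClosed_Le (B : Matrix ι ι ℝ) : IsClosed {γ : Matrix ι ι ℝ | Le γ B} := by
  simp only [Le, Set.ofPred_forall]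
  exact isClosed_iInter fun x => isClosed_le (continuous_q x) continuous_const

/-- box -/
def box (R : ℝ) : Set (Matrix ι ι ℝ) :=
  Set.pi Set.univ fun _ => Set.pi Set.univ fun _ => Set.Icc (-R) R

lemma isCompact_box (R : ℝ) : IsCompact (box R : Set (Matrix ι ι ℝ)) :=
  isCompact_univ_pi fun _ => isCompact_univ_pi fun _ => isCompact_Icc

lemma q_single (M : Matrix ι ι ℝ) (i : ι) : q M (Pi.single i 1) = M i i := by
  simp [q]

lemma bilin_single (M : Matrix ι ι ℝ) (i j : ι) :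
    (Pi.single i 1 : ι → ℝ) ⬝ᵥ M *ᵥ (Pi.single j 1) = M i j := by
  simp

/-- a symmetric positive semidefinite matrix has entries bounded by the trace bound -/
lemma abs_entry_le {γ : Matrix ι ι ℝ} (hs : γᵀ = γ) (hp : ∀ x, 0 ≤ q γ x) (i j : ι) :
    |γ i j| ≤ (γ i i + γ j j) / 2 := by
  have h1 := hp (Pi.single i 1 + Pi.single j 1)
  have h2 := hp (Pi.single i 1 - Pi.single j 1)
  rw [q_add_vec hs, q_single, q_single, bilin_single] at h1
  rw [q_sub_vec hs, q_single, q_single, bilin_single] at h2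
  rw [abs_le]
  constructor <;> linarith

lemma mem_box_of {γ B : Matrix ι ι ℝ} (hs : γᵀ = γ) (hp : ∀ x, 0 ≤ q γ x) (hle : Le γ B) :
    γ ∈ (box (∑ i, B i i) : Set (Matrix ι ι ℝ)) := by
  have hd : ∀ i, 0 ≤ γ i i := fun i => by have := hp (Pi.single i 1); rwa [q_single] at this
  have hB : ∀ i, γ i i ≤ B i i := fun i => by
    have := hle (Pi.single i 1); rwa [q_single, q_single] at this
  have hsum : ∀ i, B i i ≤ ∑ i, B i i := fun i =>
    Finset.single_le_sum (f := fun i => B i i) (fun j _ => (hd j).trans (hB j)) (Finset.mem_univ i)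
  intro i _ j _
  have h := abs_entry_le hs hp i j
  have h1 := (hB i).trans (hsum i)
  have h2 := (hB j).trans (hsum j)
  rw [Set.mem_Icc, ← abs_le]
  linarith

lemma eq_zero_of_trace {D : Matrix ι ι ℝ} (hs : Dᵀ = D) (hp : ∀ x, 0 ≤ q D x)
    (ht : D.trace ≤ 0) : D = 0 := by
  have hd : ∀ i, 0 ≤ D i i := fun i => by have := hp (Pi.single i 1); rwa [q_single] at this
  have h0 : ∀ i, D i i = 0 := by
    intro i
    have h1 : ∑ i, D i i = 0 :=
      le_antisymm ht (Finset.sum_nonneg fun i _ => hd i)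
    exact (Finset.sum_eq_zero_iff_of_nonneg (fun i _ => hd i)).mp h1 i (Finset.mem_univ i)
  ext i j
  have := abs_entry_le hs hp i j
  rw [h0, h0] at this
  have : |D i j| ≤ 0 := by linarith
  exact abs_nonpos_iff.mp this

/-- a pure covariance matrix below a covariance matrix -/
lemma exists_pure (hσ : Sig σ) {B : Matrix ι ι ℝ} (hB : Bᵀ = B) (hU : U σ B) :
    ∃ P : Matrix ι ι ℝ, P.PosDef ∧ sharp σ P = P ∧ Le P B := by
  set K : Set (Matrix ι ι ℝ) := {γ | γᵀ = γ} ∩ {γ | U σ γ} ∩ {γ | Le γ B} with hK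
  have hsub : K ⊆ box (∑ i, B i i) := by
    rintro γ ⟨⟨h1, h2⟩, h3⟩
    exact mem_box_of h1 (q_nonneg (posDef_of_U hσ h1 h2)) h3
  have hcomp : IsCompact K :=
    (isCompact_box _).of_isClosed_subset
      ((isClosed_symm.inter (isClosed_U σ)).inter (isClosed_Le B)) hsub
  have hne : K.Nonempty := ⟨B, ⟨hB, hU⟩, fun _ => le_rfl⟩
  obtain ⟨γ, ⟨⟨h1, h2⟩, h3⟩, hmin⟩ := hcomp.exists_isMinOn hne
    (Continuous.matrix_trace continuous_id).continuousOn
  have hpd := posDef_of_U hσ h1 h2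
  have hle : Le ((1 / 2 : ℝ) • (γ + sharp σ γ)) γ := by
    intro x
    have := sharp_le_of_U hσ h1 h2 x
    rw [q_smul, q_add]
    linarith
  have hmem : (1 / 2 : ℝ) • (γ + sharp σ γ) ∈ K :=
    ⟨⟨symm_avg hpd, U_avg hσ hpd⟩, hle.trans h3⟩
  have ht : γ.trace ≤ ((1 / 2 : ℝ) • (γ + sharp σ γ)).trace := hmin hmem
  have hD : γ - (1 / 2 : ℝ) • (γ + sharp σ γ) = 0 := by
    apply eq_zero_of_trace
    · rw [Matrix.transpose_sub, h1, symm_avg hpd]
    · intro x
      rw [q_sub]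
      linarith [hle x]
    · rw [Matrix.trace_sub]
      linarith
  refine ⟨γ, hpd, ?_, h3⟩
  have h4 : γ = (1 / 2 : ℝ) • (γ + sharp σ γ) := sub_eq_zero.mp hD
  have h5 : (2 : ℝ) • γ = γ + sharp σ γ := by
    conv_lhs => rw [h4]
    rw [smul_smul]
    norm_num
  have h6 : (2 : ℝ) • γ = γ + γ := two_smul ℝ γ
  rw [h6] at h5
  exact (add_left_cancel h5).symm

section
open scoped MatrixOrder

/-- a pure covariance matrix is `Sᵀ S` with `S` symplectic -/
lemma exists_symplectic (hσ : Sig σ) {P : Matrix ι ι ℝ} (hP : P.PosDef) (hs : sharp σ P = P) :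
    ∃ S : Matrix ι ι ℝ, Sy σ S ∧ Sᵀ * S = P := by
  have hP0 : 0 ≤ P := hP.posSemidef.nonneg
  set S := CFC.sqrt P with hS
  have hSS : S * S = P := CFC.sqrt_mul_sqrt_self P hP0
  have hS0 : 0 ≤ S := CFC.sqrt_nonneg P
  have hSsd : S.PosSemidef := Matrix.nonneg_iff_posSemidef.mp hS0
  have hST : Sᵀ = S := symm_of_posSemidef hSsd
  have hdet : IsUnit S.det := by
    have h1 : IsUnit P.det := (Matrix.isUnit_iff_isUnit_det P).mp hP.isUnit
    rw [← hSS, Matrix.det_mul] at h1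
    exact isUnit_of_mul_isUnit_left h1
  have hinv : S⁻¹ * S⁻¹ = P⁻¹ := by
    rw [← hSS, Matrix.mul_inv_rev]
  have hT2 : (σ * S⁻¹ * σᵀ) * (σ * S⁻¹ * σᵀ) = P := by
    calc (σ * S⁻¹ * σᵀ) * (σ * S⁻¹ * σᵀ) = σ * S⁻¹ * (σᵀ * σ) * S⁻¹ * σᵀ := by noncomm_ring
      _ = σ * (S⁻¹ * S⁻¹) * σᵀ := by rw [hσ.orth]; noncomm_ring
      _ = P := by rw [hinv]; exact hs
  have hT0 : 0 ≤ σ * S⁻¹ * σᵀ := by
    rw [Matrix.nonneg_iff_posSemidef]
    have := hSsd.inv.mul_mul_conjTranspose_same σ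
    rwa [Matrix.conjTranspose_eq_transpose_of_trivial] at this
  have hTS : σ * S⁻¹ * σᵀ = S := (CFC.sqrt_unique hT2 hT0).symm
  refine ⟨S, ?_, by rw [hST, hSS]⟩
  rw [Sy, hST]
  calc S * σ * S = (σ * S⁻¹ * σᵀ) * σ * S := by rw [hTS]
    _ = σ * S⁻¹ * (σᵀ * σ) * S := by noncomm_ring
    _ = σ * (S⁻¹ * S) := by rw [hσ.orth]; noncomm_ring
    _ = σ := by rw [Matrix.nonsing_inv_mul _ hdet, Matrix.mul_one]

end

/-- existence of a symplectic `S` with `Sᵀ S ≤ B` -/
lemma exists_below (hσ : Sig σ) {B : Matrix ι ι ℝ} (hB : Bᵀ = B) (hU : U σ B) :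
    ∃ S : Matrix ι ι ℝ, Sy σ S ∧ Le (Sᵀ * S) B := by
  obtain ⟨P, hP, hs, hle⟩ := exists_pure hσ hB hU
  obtain ⟨S, hS, hSP⟩ := exists_symplectic hσ hP hs
  exact ⟨S, hS, hSP ▸ hle⟩

end Q223.SQ
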