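import Pool.Agent.Q223.SQ.B
import Pool.Agent.Helper481.SV

/-! Perturbation of singular values -/

set_option linter.unusedSectionVars false

namespace Q223.SQ

open Matrix Topology Filter Module
open scoped InnerProductSpace

section
variable {E : Type*} [NormedAddCommGroup E] [InnerProductSpace ℝ E] [FiniteDimensional ℝ E]

open Pool.Agent.Helper481 in
lemma sv_le (T T' : E →ₗ[ℝ] E) {ε : ℝ} (hε : 0 ≤ ε) (h : ∀ v, ‖T v‖ ≤ ‖T' v‖ + ε * ‖v‖) (i : ℕ) :
    T.singularValues i ≤ T'.singularValues i + ε := by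
  rcases le_or_gt (finrank ℝ E) i with hi | hi
  · rw [LinearMap.singularValues_of_finrank_le T hi, LinearMap.singularValues_of_finrank_le T' hi]
    linarith
  · set N := finrank ℝ E with hN
    have hn : finrank ℝ E = N := rfl
    set b := rsb hn T with hb
    set b' := rsb hn T' with hb'
    -- the vectors
    let v : (Fin (i + 1) → ℝ) →ₗ[ℝ] E :=
      ∑ j : Fin (i + 1), (LinearMap.proj j : (Fin (i + 1) → ℝ) →ₗ[ℝ] ℝ).smulRight
        (b (Fin.castLE hi j))
    have hv : ∀ c, v c = ∑ j : Fin (i + 1), c j • b (Fin.castLE hi j) := by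
      intro c
      simp [v, LinearMap.sum_apply]
    let Φ : (Fin (i + 1) → ℝ) →ₗ[ℝ] (Fin i → ℝ) :=
      LinearMap.pi fun k => (innerₛₗ ℝ (b' (Fin.castLE hi.le k))).comp v
    have hker : LinearMap.ker Φ ≠ ⊥ := LinearMap.ker_ne_bot_of_finrank_lt (by simp)
    obtain ⟨c, hc, hc0⟩ := Submodule.exists_mem_ne_zero_of_ne_bot hker
    have hc' : ∀ k : Fin i, ⟪b' (Fin.castLE hi.le k), v c⟫_ℝ = 0 := by
      intro k
      have := congrFun (LinearMap.mem_ker.mp hc) k
      simpa [Φ] using this
    have hin : ∀ k : Fin N, ⟪b k, v c⟫_ℝ = if hk : (k : ℕ) < i + 1 then c ⟨k, hk⟩ else 0 := by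
      intro k
      rw [hv, inner_sum]
      simp only [inner_smul_right, orthonormal_iff_ite.mp b.orthonormal]
      split_ifs with hk
      · rw [Finset.sum_eq_single ⟨k, hk⟩]
        · have : k = Fin.castLE hi ⟨k, hk⟩ := by ext; rfl
          simp [← this]
        · intro j _ hj
          have : k ≠ Fin.castLE hi j := by
            intro h'
            apply hj
            ext
            exact (congrArg Fin.val h').symm
          simp [this]
        · intro h'; exact absurd (Finset.mem_univ _) h'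
      · apply Finset.sum_eq_zero
        intro j _
        have : k ≠ Fin.castLE hi j := by
          intro h'
          apply hk
          rw [h']
          exact j.2
        simp [this]
    have hvne : v c ≠ 0 := by
      intro h0
      apply hc0
      funext j
      have := hin (Fin.castLE hi j)
      rw [h0, inner_zero_right, dif_pos (show ((Fin.castLE hi j : Fin N) : ℕ) < i + 1 from j.2)] at this
      exact this.symm
    have hvpos : 0 < ‖v c‖ := norm_pos_iff.mpr hvne
    have hsq : ‖v c‖ ^ 2 = ∑ k : Fin N, ‖⟪b k, v c⟫_ℝ‖ ^ 2 := (b.sum_sq_norm_inner_right (v c)).symm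
    have hsq' : ‖v c‖ ^ 2 = ∑ k : Fin N, ‖⟪b' k, v c⟫_ℝ‖ ^ 2 :=
      (b'.sum_sq_norm_inner_right (v c)).symm
    -- lower bound
    have h1 : T.singularValues i * ‖v c‖ ≤ ‖T (v c)‖ := by
      rw [← sq_le_sq₀ (mul_nonneg (T.singularValues_nonneg i) hvpos.le) (norm_nonneg _), mul_pow,
        norm_sq_apply hn T, hsq, Finset.mul_sum]
      refine Finset.sum_le_sum fun k _ => ?_
      rw [← hb]
      rcases lt_or_ge (k : ℕ) (i + 1) with hk | hk
      · have := T.singularValues_antitone (show (k : ℕ) ≤ i by omega)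
        have h0 := T.singularValues_nonneg i
        gcongr
      · rw [hin k, dif_neg (by omega)]
        simp
    -- upper bound
    have h2 : ‖T' (v c)‖ ≤ T'.singularValues i * ‖v c‖ := by
      rw [← sq_le_sq₀ (norm_nonneg _) (mul_nonneg (T'.singularValues_nonneg i) hvpos.le), mul_pow,
        norm_sq_apply hn T', hsq', Finset.mul_sum]
      refine Finset.sum_le_sum fun k _ => ?_
      rw [← hb']
      rcases lt_or_ge (k : ℕ) i with hk | hk
      · have h3 := hc' ⟨k, hk⟩
        have h4 : Fin.castLE hi.le ⟨(k : ℕ), hk⟩ = k := by ext; rfl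
        rw [h4] at h3
        rw [h3]
        simp
      · have := T'.singularValues_antitone hk
        have h0 := T'.singularValues_nonneg k
        gcongr
    have h3 := h (v c)
    have h4 : T.singularValues i * ‖v c‖ ≤ (T'.singularValues i + ε) * ‖v c‖ := by
      nlinarith
    exact le_of_mul_le_mul_right h4 hvpos

end

variable {ι : Type*} [Fintype ι] [DecidableEq ι] {σ : Matrix ι ι ℝ}

/-- singular values of a matrix -/
noncomputable def sv (S : Matrix ι ι ℝ) (i : ℕ) : ℝ := (Matrix.toEuclideanLin S).singularValues i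

/-- the matrix as a continuous linear map, linearly in the matrix -/
noncomputable def Ψ : Matrix ι ι ℝ →ₗ[ℝ] (EuclideanSpace ℝ ι →L[ℝ] EuclideanSpace ℝ ι) :=
  (LinearMap.toContinuousLinearMap (𝕜 := ℝ) (E := EuclideanSpace ℝ ι)
    (F' := EuclideanSpace ℝ ι)).toLinearMap ∘ₗ (Matrix.toEuclideanLin (𝕜 := ℝ)).toLinearMap

lemma Ψ_apply (S : Matrix ι ι ℝ) (v : EuclideanSpace ℝ ι) : Ψ S v = Matrix.toEuclideanLin S v := rfl

lemma sv_sub_le (S S' : Matrix ι ι ℝ) (i : ℕ) : |sv S i - sv S' i| ≤ ‖Ψ S - Ψ S'‖ := by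
  have key : ∀ A B : Matrix ι ι ℝ, sv A i ≤ sv B i + ‖Ψ A - Ψ B‖ := by
    intro A B
    refine sv_le _ _ (norm_nonneg _) (fun v => ?_) i
    have h1 : Matrix.toEuclideanLin A v = Matrix.toEuclideanLin B v + (Ψ A - Ψ B) v := by
      rw [_root_.sub_apply, Ψ_apply, Ψ_apply]; abel
    rw [h1]
    refine (norm_add_le _ _).trans ?_
    gcongr
    exact ContinuousLinearMap.le_opNorm _ _
  rw [abs_le]
  have h1 := key S S'
  have h2 := key S' S
  rw [norm_sub_rev] at h2
  constructor <;> linarith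

lemma continuous_Ψ : Continuous fun S : Matrix ι ι ℝ => Ψ S :=
  LinearMap.continuous_of_finiteDimensional (E := Matrix ι ι ℝ)
    (F' := EuclideanSpace ℝ ι →L[ℝ] EuclideanSpace ℝ ι) Ψ

lemma continuous_sv (i : ℕ) : Continuous fun S : Matrix ι ι ℝ => sv S i := by
  rw [continuous_iff_continuousAt]
  intro S0
  refine tendsto_iff_norm_sub_tendsto_zero.mpr ?_
  have h := tendsto_iff_norm_sub_tendsto_zero.mp (continuous_Ψ.tendsto S0)
  exact squeeze_zero (fun _ => norm_nonneg _) (fun S => sv_sub_le S S0 i) h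

lemma sv_eq_of_gram {S S' : Matrix ι ι ℝ} (h : Sᵀ * S = S'ᵀ * S') (i : ℕ) : sv S i = sv S' i := by
  have hn : ∀ v : EuclideanSpace ℝ ι,
      ‖Matrix.toEuclideanLin S v‖ = ‖Matrix.toEuclideanLin S' v‖ := by
    intro v
    have h1 : q (Sᵀ * S) v.ofLp = q (S'ᵀ * S') v.ofLp := by rw [h]
    rw [q_gram, q_gram, ← normE, ← normE] at h1
    exact (sq_eq_sq₀ (norm_nonneg _) (norm_nonneg _)).mp h1
  apply le_antisymm
  · have := sv_le (Matrix.toEuclideanLin S) (Matrix.toEuclideanLin S') le_rfl
      (fun v => by rw [hn v]; simp) i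
    simpa [sv] using this
  · have := sv_le (Matrix.toEuclideanLin S') (Matrix.toEuclideanLin S) le_rfl
      (fun v => by rw [hn v]; simp) i
    simpa [sv] using this

lemma sv_pos (hσ : Sig σ) {S : Matrix ι ι ℝ} (hS : Sy σ S) {i : ℕ} (hi : i < Fintype.card ι) :
    0 < sv S i := by
  have hinj : Function.Injective (Matrix.toEuclideanLin S) := by
    intro v w hvw
    have h1 : S *ᵥ v.ofLp = S *ᵥ w.ofLp := congrArg WithLp.ofLp hvw
    have h2 : (σᵀ * Sᵀ * σ * S) *ᵥ v.ofLp = (σᵀ * Sᵀ * σ * S) *ᵥ w.ofLp := by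
      rw [← Matrix.mulVec_mulVec, h1, Matrix.mulVec_mulVec]
    rw [hS.left_inv hσ, Matrix.one_mulVec, Matrix.one_mulVec] at h2
    exact (WithLp.ofLp_injective 2) h2
  exact (LinearMap.injective_iff_forall_lt_finrank_singularValues_pos _).mp hinj i (by simpa using hi)

/-- `∑_{i < m} log s_i(S)` -/
noncomputable def logSing (m : ℕ) (S : Matrix ι ι ℝ) : ℝ :=
  ∑ i ∈ Finset.range m, Real.log (sv S i)

lemma continuousAt_logSing (hσ : Sig σ) {m : ℕ} (hm : m ≤ Fintype.card ι) {S : Matrix ι ι ℝ}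
    (hS : Sy σ S) : ContinuousAt (logSing m) S := by
  unfold logSing
  refine tendsto_finsetSum _ fun i hi => ?_
  refine (continuous_sv i).continuousAt.tendsto.log ?_
  exact (sv_pos hσ hS ((Finset.mem_range.mp hi).trans_le hm)).ne'

lemma logSing_eq {S S' : Matrix ι ι ℝ} (h : Sᵀ * S = S'ᵀ * S') (m : ℕ) :
    logSing m S = logSing m S' := by
  unfold logSing
  exact Finset.sum_congr rfl fun i _ => by rw [sv_eq_of_gram h]

end Q223.SQ
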