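import Pool.Agent.Q223.SQ.C

/-! Continuity of the squeezing measure: main argument -/

set_option linter.unusedSectionVars false

namespace Q223.SQ

open Matrix Topology Filter Module

variable {ι : Type*} [Fintype ι] [DecidableEq ι] {σ : Matrix ι ι ℝ}

instance : FirstCountableTopology (Matrix ι ι ℝ) :=
  inferInstanceAs (FirstCountableTopology (ι → ι → ℝ))

lemma continuous_gram : Continuous fun S : Matrix ι ι ℝ => Sᵀ * S :=
  (Continuous.matrix_transpose continuous_id).matrix_mul continuous_id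

lemma isClosed_Sy (σ : Matrix ι ι ℝ) : IsClosed {S : Matrix ι ι ℝ | Sy σ S} := by
  unfold Sy
  exact isClosed_eq (((Continuous.matrix_transpose continuous_id).matrix_mul
    continuous_const).matrix_mul continuous_id) continuous_const

/-- feasible set -/
def feas (σ γ : Matrix ι ι ℝ) : Set (Matrix ι ι ℝ) := {S | Sy σ S ∧ Le (Sᵀ * S) γ}

lemma gram_diag (X : Matrix ι ι ℝ) (j : ι) : (Xᵀ * X) j j = ∑ i, X i j ^ 2 := by
  rw [Matrix.mul_apply]
  exact Finset.sum_congr rfl fun i _ => by rw [Matrix.transpose_apply, sq]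

lemma mem_box_gram {X γ : Matrix ι ι ℝ} (h : Le (Xᵀ * X) γ) :
    X ∈ (box (1 + ∑ i, γ i i) : Set (Matrix ι ι ℝ)) := by
  have hd : ∀ j, ∑ i, X i j ^ 2 ≤ γ j j := fun j => by
    have := h (Pi.single j 1)
    rwa [q_single, q_single, gram_diag] at this
  have hd0 : ∀ j, 0 ≤ γ j j := fun j =>
    (Finset.sum_nonneg fun i _ => sq_nonneg (X i j)).trans (hd j)
  have hsum : ∀ i, γ i i ≤ ∑ i, γ i i := fun i =>
    Finset.single_le_sum (f := fun i => γ i i) (fun j _ => hd0 j) (Finset.mem_univ i)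
  intro i _ j _
  have h1 : X i j ^ 2 ≤ ∑ i, γ i i :=
    (Finset.single_le_sum (f := fun i => X i j ^ 2) (fun i _ => sq_nonneg _)
      (Finset.mem_univ i)).trans ((hd j).trans (hsum j))
  rw [Set.mem_Icc, ← abs_le]
  have h2 : 0 ≤ ∑ i, γ i i := (sq_nonneg _).trans h1
  nlinarith [sq_abs (X i j), abs_nonneg (X i j), sq_nonneg (|X i j| - 1)]

lemma isClosed_feas (σ γ : Matrix ι ι ℝ) : IsClosed (feas σ γ) :=
  (isClosed_Sy σ).inter ((isClosed_Le γ).preimage continuous_gram)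

lemma isCompact_feas (σ γ : Matrix ι ι ℝ) : IsCompact (feas σ γ) :=
  (isCompact_box _).of_isClosed_subset (isClosed_feas σ γ) fun _ h => mem_box_gram h.2

/-- existence of an optimal `S` -/
lemma exists_opt (hσ : Sig σ) {m : ℕ} (hm : m ≤ Fintype.card ι) {γ : Matrix ι ι ℝ}
    (hs : γᵀ = γ) (hU : U σ γ) :
    ∃ S ∈ feas σ γ, ∀ S' ∈ feas σ γ, logSing m S ≤ logSing m S' := by
  obtain ⟨S0, h1, h2⟩ := exists_below hσ hs hU
  obtain ⟨S, hS, hmin⟩ := (isCompact_feas σ γ).exists_isMinOn ⟨S0, h1, h2⟩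
    (f := logSing m) (fun S hS => (continuousAt_logSing hσ hm hS.1).continuousWithinAt)
  exact ⟨S, hS, fun S' hS' => hmin hS'⟩

lemma tendsto_sharp {g : ℕ → Matrix ι ι ℝ} {A : Matrix ι ι ℝ} (hA : A.PosDef)
    (h : Tendsto g atTop (𝓝 A)) : Tendsto (fun k => sharp σ (g k)) atTop (𝓝 (sharp σ A)) := by
  have hdet : A.det ≠ 0 := hA.det_pos.ne'
  have h1 : Tendsto (fun k => (g k).det) atTop (𝓝 A.det) :=
    (Continuous.matrix_det continuous_id).continuousAt.tendsto.comp h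
  have h2 : Tendsto (fun k => (g k).adjugate) atTop (𝓝 A.adjugate) :=
    (Continuous.matrix_adjugate continuous_id).continuousAt.tendsto.comp h
  have h3 : Tendsto (fun k => (g k)⁻¹) atTop (𝓝 A⁻¹) := by
    have h4 : ∀ M : Matrix ι ι ℝ, M⁻¹ = M.det⁻¹ • M.adjugate := fun M => by
      rw [Matrix.inv_def, Ring.inverse_eq_inv']
    simp only [h4]
    exact (h1.inv₀ hdet).smul h2
  unfold sharp
  exact (((continuous_const.matrix_mul continuous_id).matrix_mul
    continuous_const).continuousAt.tendsto.comp h3 :)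

/-- the key step: nearly optimal symplectic matrices below `γ k` -/
theorem seq_main (hσ : Sig σ) {m : ℕ} (hm : m ≤ Fintype.card ι) {g : ℕ → Matrix ι ι ℝ}
    {γ : Matrix ι ι ℝ} (hg : ∀ k, (g k)ᵀ = g k ∧ U σ (g k)) (hγ : γᵀ = γ ∧ U σ γ)
    (hlim : Tendsto g atTop (𝓝 γ)) {G : Matrix ι ι ℝ → ℝ}
    (hG : ∀ γ' : Matrix ι ι ℝ, γ'ᵀ = γ' → U σ γ' → ∀ S ∈ feas σ γ',
      (∀ S' ∈ feas σ γ', logSing m S ≤ logSing m S') → G γ' = logSing m S) :
    ∃ φ : ℕ → ℕ, Tendsto (fun k => G (g (φ k))) atTop (𝓝 (G γ)) := by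
  have hpd : ∀ k, (g k).PosDef := fun k => posDef_of_U hσ (hg k).1 (hg k).2
  have hpd0 : γ.PosDef := posDef_of_U hσ hγ.1 hγ.2
  -- optimal matrices
  choose S hS hSmin using fun k => exists_opt hσ hm (hg k).1 (hg k).2
  obtain ⟨S0, hS0, hS0min⟩ := exists_opt hσ hm hγ.1 hγ.2
  have hGk : ∀ k, G (g k) = logSing m (S k) := fun k => hG _ (hg k).1 (hg k).2 _ (hS k) (hSmin k)
  have hG0 : G γ = logSing m S0 := hG _ hγ.1 hγ.2 _ hS0 hS0min
  -- a uniform bound
  have htr : Tendsto (fun k => 1 + ∑ i, g k i i) atTop (𝓝 (1 + ∑ i, γ i i)) := by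
    refine tendsto_const_nhds.add (tendsto_finsetSum _ fun i _ => ?_)
    exact ((continuous_id.matrix_elem i i).tendsto γ).comp hlim
  obtain ⟨R, hR⟩ := htr.bddAbove_range
  have hR' : ∀ k, 1 + ∑ i, g k i i ≤ R := fun k => hR ⟨k, rfl⟩
  have hbox : ∀ k (X : Matrix ι ι ℝ), Le (Xᵀ * X) (g k) → X ∈ (box R : Set (Matrix ι ι ℝ)) := by
    intro k X hX i _ j _
    have h1 := mem_box_gram hX i (Set.mem_univ _) j (Set.mem_univ _)
    have h2 := hR' k
    exact ⟨by linarith [h1.1], by linarith [h1.2]⟩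
  -- factorisations of `g k - (g k)^♯`
  have hfac : ∀ k, ∃ X : Matrix ι ι ℝ, Xᵀ * X = g k - sharp σ (g k) := by
    intro k
    have h1 : (g k - sharp σ (g k)).PosSemidef := by
      apply posSemidef_of
      · rw [Matrix.transpose_sub, (hg k).1, sharp_symm (hpd k)]
      · intro x
        rw [q_sub]
        linarith [sharp_le_of_U hσ (hg k).1 (hg k).2 x]
    open scoped MatrixOrder in
    obtain ⟨X, hX⟩ := CStarAlgebra.nonneg_iff_eq_star_mul_self.mp h1.nonneg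
    refine ⟨X, ?_⟩
    rw [hX, Matrix.star_eq_conjTranspose, Matrix.conjTranspose_eq_transpose_of_trivial]
  choose X hX using hfac
  have hXle : ∀ k, Le ((X k)ᵀ * X k) (g k) := by
    intro k x
    rw [hX, q_sub]
    have := q_nonneg (sharp_posDef hσ (hpd k)) x
    linarith
  -- first subsequence
  obtain ⟨⟨Sl, X0⟩, -, φ₁, hφ₁, hlim₁⟩ := ((isCompact_box (ι := ι) R).prod
    (isCompact_box (ι := ι) R)).tendsto_subseq (x := fun k => (S k, X k))
    (fun k => ⟨hbox k _ (hS k).2, hbox k _ (hXle k)⟩)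
  have hSl : Tendsto (fun k => S (φ₁ k)) atTop (𝓝 Sl) :=
    (continuous_fst.tendsto (Sl, X0)).comp hlim₁
  have hX0 : Tendsto (fun k => X (φ₁ k)) atTop (𝓝 X0) :=
    (continuous_snd.tendsto (Sl, X0)).comp hlim₁
  have hg₁ : Tendsto (fun k => g (φ₁ k)) atTop (𝓝 γ) := hlim.comp hφ₁.tendsto_atTop
  have hsh₁ : Tendsto (fun k => sharp σ (g (φ₁ k))) atTop (𝓝 (sharp σ γ)) :=
    tendsto_sharp (σ := σ) hpd0 hg₁
  have hX0eq : X0ᵀ * X0 = γ - sharp σ γ := by
    have h1 : Tendsto (fun k => (X (φ₁ k))ᵀ * X (φ₁ k)) atTop (𝓝 (X0ᵀ * X0)) :=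
      (continuous_gram.tendsto X0).comp hX0
    have h2 : Tendsto (fun k => (X (φ₁ k))ᵀ * X (φ₁ k)) atTop (𝓝 (γ - sharp σ γ)) := by
      simp only [hX]
      exact hg₁.sub hsh₁
    exact tendsto_nhds_unique h1 h2
  -- limit of the optimal matrices is feasible for `γ`
  have hlimLe : ∀ {A : ℕ → Matrix ι ι ℝ} {B : ℕ → Matrix ι ι ℝ} {A' B' : Matrix ι ι ℝ},
      Tendsto A atTop (𝓝 A') → Tendsto B atTop (𝓝 B') → (∀ k, Le (A k) (B k)) → Le A' B' := by
    intro A B A' B' hA hB hle x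
    exact le_of_tendsto_of_tendsto' (((continuous_q x).tendsto A').comp hA)
      (((continuous_q x).tendsto B').comp hB) fun k => hle k x
  have hSlfeas : Sl ∈ feas σ γ := by
    refine ⟨(isClosed_Sy σ).mem_of_tendsto hSl (Eventually.of_forall fun k => (hS _).1), ?_⟩
    exact hlimLe ((continuous_gram.tendsto Sl).comp hSl) hg₁ fun k => (hS (φ₁ k)).2
  -- the pure state `P0` of the optimal matrix for `γ`
  set P0 := S0ᵀ * S0 with hP0
  have hP0pd : P0.PosDef := hS0.1.gram_posDef hσ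
  have hP0s : sharp σ P0 = P0 := hS0.1.sharp_gram hσ
  have hlow : Le (sharp σ γ) P0 := by
    have := sharp_anti (σ := σ) hP0pd hpd0 hS0.2
    rwa [hP0s] at this
  obtain ⟨Y, hY⟩ : ∃ Y : Matrix ι ι ℝ, Yᵀ * Y = P0 - sharp σ γ := by
    have h1 : (P0 - sharp σ γ).PosSemidef := by
      apply posSemidef_of
      · rw [Matrix.transpose_sub, symm_of_posDef hP0pd, sharp_symm hpd0]
      · intro x
        rw [q_sub]
        linarith [hlow x]
    open scoped MatrixOrder in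
    obtain ⟨X, hX⟩ := CStarAlgebra.nonneg_iff_eq_star_mul_self.mp h1.nonneg
    refine ⟨X, ?_⟩
    rw [hX, Matrix.star_eq_conjTranspose, Matrix.conjTranspose_eq_transpose_of_trivial]
  obtain ⟨T, hTX, hT1⟩ := douglas X0 Y (by
    intro x
    rw [hY, hX0eq, q_sub, q_sub]
    linarith [hS0.2 x])
  -- the matrices `A k`
  set A : ℕ → Matrix ι ι ℝ := fun k =>
    sharp σ (g (φ₁ k)) + (T * X (φ₁ k))ᵀ * (T * X (φ₁ k)) with hA
  have hqT : ∀ k x, q ((T * X (φ₁ k))ᵀ * (T * X (φ₁ k))) x ≤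
      q (g (φ₁ k)) x - q (sharp σ (g (φ₁ k))) x := by
    intro k x
    have h1 : q ((T * X (φ₁ k))ᵀ * (T * X (φ₁ k))) x = q (Tᵀ * T) (X (φ₁ k) *ᵥ x) := by
      rw [q_gram, q_gram, Matrix.mulVec_mulVec]
    have h2 : q 1 (X (φ₁ k) *ᵥ x) = q ((X (φ₁ k))ᵀ * X (φ₁ k)) x := by
      rw [q_gram]; simp [q]
    rw [h1, ← q_sub, ← hX, ← h2]
    exact hT1 _
  have hAlow : ∀ k, Le (sharp σ (g (φ₁ k))) (A k) := by
    intro k x
    rw [hA, q_add, q_gram]
    have : 0 ≤ ((T * X (φ₁ k)) *ᵥ x) ⬝ᵥ ((T * X (φ₁ k)) *ᵥ x) := by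
      rw [← normE]; positivity
    linarith
  have hAup : ∀ k, Le (A k) (g (φ₁ k)) := by
    intro k x
    rw [hA, q_add]
    linarith [hqT k x]
  have hApd : ∀ k, (A k).PosDef := by
    intro k
    refine posDef_of ?_ fun x hx => ?_
    · rw [hA]
      simp only [Matrix.transpose_add, gram_symm, sharp_symm (hpd (φ₁ k))]
    · exact (q_pos (sharp_posDef hσ (hpd (φ₁ k))) hx).trans_le (hAlow k x)
  have hAlim : Tendsto A atTop (𝓝 P0) := by
    have h1 : Tendsto (fun k => T * X (φ₁ k)) atTop (𝓝 Y) := by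
      rw [← hTX]
      exact ((continuous_const.matrix_mul continuous_id).tendsto X0).comp hX0
    have h2 := hsh₁.add ((continuous_gram.tendsto Y).comp h1)
    rw [hY, add_sub_cancel] at h2
    exact h2
  have hAsh : Tendsto (fun k => sharp σ (A k)) atTop (𝓝 P0) := by
    have := tendsto_sharp (σ := σ) hP0pd hAlim
    rwa [hP0s] at this
  -- the covariance matrices `B k`
  set B : ℕ → Matrix ι ι ℝ := fun k => (1 / 2 : ℝ) • (A k + sharp σ (A k)) with hB
  have hBs : ∀ k, (B k)ᵀ = B k := fun k => symm_avg (hApd k)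
  have hBU : ∀ k, U σ (B k) := fun k => U_avg hσ (hApd k)
  have hBup : ∀ k, Le (B k) (g (φ₁ k)) := by
    intro k x
    have h1 := hAup k x
    have h2 := sharp_anti (σ := σ) (sharp_posDef hσ (hpd (φ₁ k))) (hApd k) (hAlow k) x
    rw [sharp_sharp hσ (hpd (φ₁ k))] at h2
    rw [hB, q_smul, q_add]
    linarith
  have hBlim : Tendsto B atTop (𝓝 P0) := by
    have h1 := (hAlim.add hAsh).const_smul (1 / 2 : ℝ)
    have h2 : (1 / 2 : ℝ) • (P0 + P0) = P0 := by
      rw [← two_smul ℝ P0, smul_smul]; norm_num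
    rwa [h2] at h1
  choose S' hS'1 hS'2 using fun k => exists_below hσ (hBs k) (hBU k)
  -- second subsequence
  obtain ⟨S1, -, φ₂, hφ₂, hlim₂⟩ := (isCompact_box (ι := ι) R).tendsto_subseq (x := S')
    (fun k => hbox (φ₁ k) _ ((hS'2 k).trans (hBup k)))
  have hS1 : Sy σ S1 :=
    (isClosed_Sy σ).mem_of_tendsto hlim₂ (Eventually.of_forall fun k => hS'1 _)
  have hS1le : Le (S1ᵀ * S1) P0 :=
    hlimLe ((continuous_gram.tendsto S1).comp hlim₂) (hBlim.comp hφ₂.tendsto_atTop)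
      fun k => hS'2 (φ₂ k)
  have hS1eq : S1ᵀ * S1 = P0 :=
    eq_of_le_of_sharp (σ := σ) _ _ (hS1.gram_posDef hσ) hP0pd (hS1.sharp_gram hσ) hP0s hS1le
  -- conclusion
  refine ⟨φ₁ ∘ φ₂, ?_⟩
  have hlim3 : Tendsto (fun k => G (g ((φ₁ ∘ φ₂) k))) atTop (𝓝 (logSing m Sl)) := by
    simp only [hGk, Function.comp]
    exact (continuousAt_logSing hσ hm hSlfeas.1).tendsto.comp (hSl.comp hφ₂.tendsto_atTop)
  have hlim4 : Tendsto (fun k => logSing m (S' (φ₂ k))) atTop (𝓝 (logSing m S1)) :=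
    (continuousAt_logSing hσ hm hS1).tendsto.comp hlim₂
  have hle : logSing m Sl ≤ logSing m S1 := by
    refine le_of_tendsto_of_tendsto' hlim3 hlim4 fun k => ?_
    rw [hGk]
    exact hSmin _ _ ⟨hS'1 _, (hS'2 _).trans (hBup _)⟩
  have heq : logSing m Sl = G γ := by
    apply le_antisymm
    · rw [hG0, ← logSing_eq hS1eq m]
      exact hle
    · rw [hG0]
      exact hS0min _ hSlfeas
  rwa [heq] at hlim3

end Q223.SQ
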